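import Pool.Agent.Q25.PLP.Stm

/-!
# Points, lines and planes: the bound for the number of planes by the lines
-/

set_option autoImplicit false

open Finset Pool.Agent.Helper123.PLP

namespace Pool.Agent.Q164.PLP

section
variable {P : Type} [Fintype P] [DecidableEq P] (G : Geo P)

/-- every point off `l` is in exactly one plane that contains `l` -/
lemma plane_sum {l : Finset P} (hl : l ∈ G.L) :
    ∑ h ∈ G.H.filter (fun h => l ⊆ h), ((h.card : ℝ) - l.card) = (Fintype.card P : ℝ) - l.card := by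
  classical
  have h1 : (univ \ l : Finset P) = (G.H.filter (fun h => l ⊆ h)).biUnion (fun h => h \ l) := by
    ext x
    simp only [mem_sdiff, mem_univ, true_and, mem_biUnion, mem_filter]
    constructor
    · intro hx
      obtain ⟨h, hh, hlh, hxh⟩ := G.ex_plane l hl x hx
      exact ⟨h, ⟨hh, hlh⟩, hxh, hx⟩
    · rintro ⟨h, _, _, hx⟩
      exact hx
  have h2 : (univ \ l : Finset P).card = ∑ h ∈ G.H.filter (fun h => l ⊆ h), (h \ l).card := by
    rw [h1]
    apply card_biUnion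
    intro h hh h' hh' hne
    change Disjoint (h \ l) (h' \ l)
    rw [Finset.disjoint_left]
    intro x hx hx'
    simp only [mem_sdiff] at hx hx'
    simp only [mem_coe, mem_filter] at hh hh'
    exact hne (G.uniq_plane l hl x hx.2 h hh.1 h' hh'.1 hh.2 hx.1 hh'.2 hx'.1)
  have h3 : ((univ \ l : Finset P).card : ℝ) = (Fintype.card P : ℝ) - l.card := by
    rw [card_sdiff_of_subset (subset_univ l), Nat.cast_sub (card_le_card (subset_univ l)), card_univ]
  rw [← h3, h2, Nat.cast_sum]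
  apply sum_congr rfl
  intro h hh
  rw [mem_filter] at hh
  rw [card_sdiff_of_subset hh.2, Nat.cast_sub (card_le_card hh.2)]

/-- three lines of a plane in general position -/
lemma three {h : Finset P} (hh : h ∈ G.H) : ∃ a ∈ inn G.L h, ∃ b ∈ inn G.L h, ∃ c ∈ inn G.L h,
    a ≠ b ∧ a ≠ c ∧ b ≠ c ∧ a.card + b.card + c.card ≤ h.card + 3 := by
  classical
  obtain ⟨l0, hl0, hl0h, x, hx, hxl⟩ := G.nondeg h hh
  obtain ⟨y, hy, z, hz, hyz⟩ := Finset.one_lt_card.mp
    (by have := G.two_le l0 hl0; omega : 1 < l0.card)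
  have hxy : x ≠ y := fun e => hxl (e ▸ hy)
  have hxz : x ≠ z := fun e => hxl (e ▸ hz)
  obtain ⟨l1, hl1, hx1, hy1⟩ := G.ex_line x y hxy
  obtain ⟨l2, hl2, hx2, hz2⟩ := G.ex_line x z hxz
  have hl1h : l1 ⊆ h := G.closed h hh l1 hl1 x y hxy hx1 hy1 hx (hl0h hy)
  have hl2h : l2 ⊆ h := G.closed h hh l2 hl2 x z hxz hx2 hz2 hx (hl0h hz)
  have n01 : l0 ≠ l1 := fun e => hxl (e ▸ hx1)
  have n02 : l0 ≠ l2 := fun e => hxl (e ▸ hx2)
  have n12 : l1 ≠ l2 := by
    intro e
    exact n01 (G.uniq_line l0 hl0 l1 hl1 y z hyz hy hz hy1 (e ▸ hz2))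
  have hint : ∀ a ∈ G.L, ∀ b ∈ G.L, a ≠ b → (a ∩ b).card ≤ 1 := by
    intro a ha b hb hab
    rw [Finset.card_le_one]
    intro u hu v hv
    by_contra huv
    rw [mem_inter] at hu hv
    exact hab (G.uniq_line a ha b hb u v huv hu.1 hv.1 hu.2 hv.2)
  refine ⟨l0, mem_inn.2 ⟨hl0, hl0h⟩, l1, mem_inn.2 ⟨hl1, hl1h⟩, l2, mem_inn.2 ⟨hl2, hl2h⟩,
    n01, n02, n12, ?_⟩
  have e1 := card_union_add_card_inter l0 l1
  have e2 := card_union_add_card_inter (l0 ∪ l1) l2
  have e3 : ((l0 ∪ l1) ∩ l2).card ≤ (l0 ∩ l2).card + (l1 ∩ l2).card := by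
    rw [union_inter_distrib_right]
    exact card_union_le _ _
  have e4 : (l0 ∪ l1 ∪ l2).card ≤ h.card := card_le_card (union_subset (union_subset hl0h hl1h) hl2h)
  have f1 := hint l0 hl0 l1 hl1 n01
  have f2 := hint l0 hl0 l2 hl2 n02
  have f3 := hint l1 hl1 l2 hl2 n12
  omega

lemma ineq3 {a b c q : ℝ} (ha : 2 ≤ a) (hb : 2 ≤ b) (hc : 2 ≤ c) (hq : a + b + c ≤ q + 3) :
    3 / 2 ≤ (q - a) / a + (q - b) / b + (q - c) / c := by
  have ha0 : 0 < a := by linarith
  have hb0 : 0 < b := by linarith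
  have hc0 : 0 < c := by linarith
  have e1 : (b + c - 3) / a ≤ (q - a) / a := by
    apply div_le_div_of_nonneg_right _ ha0.le; linarith
  have e2 : (a + c - 3) / b ≤ (q - b) / b := by
    apply div_le_div_of_nonneg_right _ hb0.le; linarith
  have e3 : (a + b - 3) / c ≤ (q - c) / c := by
    apply div_le_div_of_nonneg_right _ hc0.le; linarith
  have key : ∀ u v : ℝ, 0 < u → 0 < v → 2 ≤ u / v + v / u := by
    intro u v hu hv
    rw [div_add_div _ _ hv.ne' hu.ne', le_div_iff₀ (by positivity)]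
    nlinarith [sq_nonneg (u - v)]
  have k1 := key a b ha0 hb0
  have k2 := key a c ha0 hc0
  have k3 := key b c hb0 hc0
  have i1 : 3 / a ≤ 3 / 2 := by
    apply div_le_div_of_nonneg_left (by norm_num) (by norm_num) ha
  have i2 : 3 / b ≤ 3 / 2 := by
    apply div_le_div_of_nonneg_left (by norm_num) (by norm_num) hb
  have i3 : 3 / c ≤ 3 / 2 := by
    apply div_le_div_of_nonneg_left (by norm_num) (by norm_num) hc
  have s1 : (b + c - 3) / a = b / a + c / a - 3 / a := by ring
  have s2 : (a + c - 3) / b = a / b + c / b - 3 / b := by ring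
  have s3 : (a + b - 3) / c = a / c + b / c - 3 / c := by ring
  linarith

/-- the terms of the sum over the lines of a plane are nonnegative -/
lemma term_nn {h l : Finset P} (hl : l ∈ inn G.L h) : 0 ≤ ((h.card : ℝ) - l.card) / l.card := by
  have : (l.card : ℝ) ≤ h.card := by exact_mod_cast card_le_card (mem_inn.1 hl).2
  apply div_nonneg (by linarith) (by positivity)

lemma three_sum {h : Finset P} {a b c : Finset P} (ha : a ∈ inn G.L h) (hb : b ∈ inn G.L h)
    (hc : c ∈ inn G.L h) (hab : a ≠ b) (hac : a ≠ c) (hbc : b ≠ c) :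
    ((h.card : ℝ) - a.card) / a.card + ((h.card : ℝ) - b.card) / b.card
      + ((h.card : ℝ) - c.card) / c.card ≤ ∑ l ∈ inn G.L h, ((h.card : ℝ) - l.card) / l.card := by
  classical
  have hsub : ({a, b, c} : Finset (Finset P)) ⊆ inn G.L h := by
    intro l hl
    simp only [mem_insert, mem_singleton] at hl
    rcases hl with rfl | rfl | rfl <;> assumption
  have h1 := sum_le_sum_of_subset_of_nonneg (f := fun l : Finset P => ((h.card : ℝ) - l.card) / l.card)
    hsub (fun l hl _ => term_nn G hl)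
  rw [sum_insert (by simp [hab, hac]), sum_insert (by simp [hbc]), sum_singleton] at h1
  linarith

lemma plane_ge {h : Finset P} (hh : h ∈ G.H) :
    3 / 2 ≤ ∑ l ∈ inn G.L h, ((h.card : ℝ) - l.card) / l.card := by
  obtain ⟨a, ha, b, hb, c, hc, hab, hac, hbc, hq⟩ := three G hh
  have g : ∀ l ∈ inn G.L h, (2 : ℝ) ≤ l.card := by
    intro l hl
    exact_mod_cast G.two_le l (mem_inn.1 hl).1
  have hq' : (a.card : ℝ) + b.card + c.card ≤ h.card + 3 := by exact_mod_cast hq
  exact (ineq3 (g a ha) (g b hb) (g c hc) hq').trans (three_sum G ha hb hc hab hac hbc)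

lemma swap_sum : ∑ l ∈ G.L, ((Fintype.card P : ℝ) - l.card) / l.card =
    ∑ h ∈ G.H, ∑ l ∈ inn G.L h, ((h.card : ℝ) - l.card) / l.card := by
  have h1 : ∀ l ∈ G.L, ((Fintype.card P : ℝ) - l.card) / l.card =
      ∑ h ∈ G.H, if l ⊆ h then ((h.card : ℝ) - l.card) / l.card else 0 := by
    intro l hl
    rw [← plane_sum G hl, sum_div, sum_filter]
  rw [sum_congr rfl h1, sum_comm]
  apply sum_congr rfl
  intro h _
  unfold inn
  rw [sum_filter]

end

theorem t_M1 : Q25.PLP.S_M1 := by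
  intro P _ _ G
  have hterm : ∀ l ∈ G.L, ((Fintype.card P : ℝ) - l.card) / l.card ≤
      ((Fintype.card P : ℝ) - 2) * (1 / (l.card : ℝ)) := by
    intro l hl
    have h2 : (2 : ℝ) ≤ l.card := by exact_mod_cast G.two_le l hl
    rw [mul_one_div]
    apply div_le_div_of_nonneg_right _ (by linarith)
    linarith
  have hA : ∑ l ∈ G.L, ((Fintype.card P : ℝ) - l.card) / l.card ≤
      ((Fintype.card P : ℝ) - 2) * ∑ l ∈ G.L, 1 / (l.card : ℝ) := by
    rw [mul_sum]
    exact sum_le_sum hterm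
  have hB : 3 / 2 * (G.H.card : ℝ) ≤
      ∑ h ∈ G.H, ∑ l ∈ inn G.L h, ((h.card : ℝ) - l.card) / l.card := by
    have := sum_le_sum (s := G.H) (f := fun _ => (3 / 2 : ℝ)) (fun h hh => plane_ge G hh)
    rw [sum_const, nsmul_eq_mul] at this
    linarith
  rw [← swap_sum] at hB
  refine ⟨hB.trans hA, ?_⟩
  intro heq h hh
  -- all lines have two points
  have hsum : ∑ l ∈ G.L, ((Fintype.card P : ℝ) - l.card) / l.card =
      ∑ l ∈ G.L, ((Fintype.card P : ℝ) - 2) * (1 / (l.card : ℝ)) := by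
    rw [← mul_sum]
    linarith
  have hall := (sum_eq_sum_iff_of_le hterm).1 hsum
  have htwo : ∀ l ∈ G.L, l.card = 2 := by
    intro l hl
    have h2 : (2 : ℝ) ≤ l.card := by exact_mod_cast G.two_le l hl
    have h3 := hall l hl
    rw [mul_one_div, div_left_inj' (by linarith)] at h3
    have : (l.card : ℝ) = 2 := by linarith
    exact_mod_cast this
  -- each plane has the sum three halves
  have hC : ∑ h ∈ G.H, (3 / 2 : ℝ) =
      ∑ h ∈ G.H, ∑ l ∈ inn G.L h, ((h.card : ℝ) - l.card) / l.card := by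
    rw [← swap_sum, sum_const, nsmul_eq_mul]
    linarith
  have hD := (sum_eq_sum_iff_of_le (fun h hh => plane_ge G hh)).1 hC h hh
  obtain ⟨a, ha, b, hb, c, hc, hab, hac, hbc, hq⟩ := three G hh
  have h4 := three_sum G ha hb hc hab hac hbc
  rw [← hD] at h4
  have ca := htwo a (mem_inn.1 ha).1
  have cb := htwo b (mem_inn.1 hb).1
  have cc := htwo c (mem_inn.1 hc).1
  rw [ca, cb, cc] at h4 hq
  have h5 : (h.card : ℝ) ≤ 3 := by
    norm_num at h4
    linarith
  have h6 : h.card ≤ 3 := by exact_mod_cast h5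
  omega

end Pool.Agent.Q164.PLP
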