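import Pool.Agent.Q25.PLP.Stm

/-!
# Points, lines and planes: the contribution of a point in the near-projective case
-/

set_option autoImplicit false

open Finset Pool.Agent.Helper123.PLP Pool.Agent.Q25.PLP

namespace Pool.Agent.Q164.PLP

section
variable {P : Type} [DecidableEq P] {V : Finset P} {L : Finset (Finset P)}

/-- the contribution of the lines through `x` as a sum over the lower points -/
lemma Qx_eq (hL : IsLS V L) (γ : P → ℝ) {x : P} (hx : x ∈ V) (ln : P → Finset P)
    (hln : ∀ z ∈ V, z ≠ x → ln z ∈ L ∧ x ∈ ln z ∧ z ∈ ln z) :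
    Qx V L γ x = ∑ z ∈ lowS V γ x 0, ((V.card : ℝ) - (ln z).card) * (γ x - γ z) ^ 2 := by
  classical
  unfold Qx
  have h1 : ∀ l ∈ thr L x, ((V.card : ℝ) - l.card) * ∑ z ∈ l, (max (γ x - γ z) 0) ^ 2 =
      ∑ z ∈ V, if z ∈ l then ((V.card : ℝ) - l.card) * (max (γ x - γ z) 0) ^ 2 else 0 := by
    intro l hl
    have hlV : l ⊆ V := hL.sub l (mem_filter.1 hl).1
    rw [mul_sum, ← sum_filter]
    congr 1
    ext z
    simp only [mem_filter]
    exact ⟨fun h => ⟨hlV h, h⟩, fun h => h.2⟩
  rw [sum_congr rfl h1, sum_comm]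
  unfold lowS
  rw [sum_filter]
  apply sum_congr rfl
  intro z hz
  split_ifs with h
  · have hzx : z ≠ x := by
      rintro rfl
      simp at h
    obtain ⟨hl, hxl, hzl⟩ := hln z hz hzx
    rw [sum_eq_single (ln z)]
    · rw [if_pos hzl, max_eq_left (by linarith)]
    · intro l hlt hne
      rw [if_neg]
      intro hzl'
      have hlt' := mem_filter.1 hlt
      exact hne (hL.uniq l hlt'.1 (ln z) hl x z hzx.symm hlt'.2 hzl' hxl hzl)
    · intro hn
      exact absurd (mem_filter.2 ⟨hl, hxl⟩) hn
  · apply sum_eq_zero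
    intro l _
    have : max (γ x - γ z) 0 = 0 := max_eq_right (by linarith)
    rw [this]
    simp

/-- the lines that choose `x` take up room outside the lower points -/
lemma room (hL : IsLS V L) {γ : P → ℝ} {X : Finset P → P} (hX : IsLow L γ X) {x : P} (hx : x ∈ V) :
    (lowS V γ x 0).card + 1 + NN L X x ≤ V.card := by
  classical
  set A : Finset (Finset P) := L.filter (fun l => X l = x) with hA
  have hpt : ∀ l : Finset P, l ∈ A → ∃ y ∈ l, y ≠ x := by
    intro l hl
    have hl' := mem_filter.1 hl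
    exact Finset.exists_mem_ne (by have := hL.two_le l hl'.1; omega : 1 < l.card) x
  have : Nonempty P := ⟨x⟩
  choose! y hy using hpt
  have hxl : ∀ l ∈ A, x ∈ l := by
    intro l hl
    have hl' := mem_filter.1 hl
    have := (hX l hl'.1).1
    rwa [hl'.2] at this
  have hinj : Set.InjOn y (A : Set (Finset P)) := by
    intro l hl l' hl' e
    have hl1 : l ∈ A := hl
    have hl2 : l' ∈ A := hl'
    have m1 := hy l hl1
    have m2 := hy l' hl2
    refine hL.uniq l (mem_filter.1 hl1).1 l' (mem_filter.1 hl2).1 x (y l) m1.2.symm (hxl l hl1) m1.1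
      (hxl l' hl2) ?_
    rw [e]
    exact m2.1
  have hcard : (A.image y).card = NN L X x := card_image_of_injOn hinj
  have hlow : ∀ w ∈ insert x (A.image y), w ∉ lowS V γ x 0 := by
    intro w hw hw'
    unfold lowS at hw'
    rw [mem_filter] at hw'
    rw [mem_insert, mem_image] at hw
    rcases hw with rfl | ⟨l, hl, rfl⟩
    · have := hw'.2
      simp at this
    · have hl' := mem_filter.1 hl
      have h3 := (hX l hl'.1).2 (y l) (hy l hl).1
      rw [hl'.2] at h3
      have := hw'.2
      linarith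
  have hxA : x ∉ A.image y := by
    intro h
    rw [mem_image] at h
    obtain ⟨l, hl, e⟩ := h
    exact (hy l hl).2 e
  have hdisj : Disjoint (lowS V γ x 0) (insert x (A.image y)) := by
    rw [Finset.disjoint_left]
    intro w hw hw'
    exact hlow w hw' hw
  have hsub : lowS V γ x 0 ∪ insert x (A.image y) ⊆ V := by
    intro w hw
    rw [mem_union, mem_insert, mem_image] at hw
    rcases hw with hw | rfl | ⟨l, hl, rfl⟩
    · exact (mem_filter.1 hw).1
    · exact hx
    · exact hL.sub l (mem_filter.1 hl).1 (hy l hl).1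
  have h5 := card_le_card hsub
  rw [card_union_of_disjoint hdisj, card_insert_of_notMem hxA, hcard] at h5
  omega

lemma lowS_mis (hL : IsLS V L) {γ : P → ℝ} {X : Finset P → P} (hX : IsLow L γ X) {x : P} {θ : ℝ} :
    mis L x (lowS V γ x θ) = L.filter (fun l => x ∉ l ∧ θ < γ x - γ (X l)) := by
  classical
  unfold mis
  apply filter_congr
  intro l hl
  apply and_congr_right
  intro _
  constructor
  · rintro ⟨z, hz⟩
    rw [mem_inter] at hz
    have h1 := (mem_filter.1 hz.2).2
    have h2 := (hX l hl).2 z hz.1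
    linarith
  · intro h
    exact ⟨X l, mem_inter.2 ⟨(hX l hl).1, mem_filter.2 ⟨hL.sub l hl (hX l hl).1, h⟩⟩⟩

end

theorem t_PTT (hABT : S_ABT) : S_PTT := by
  classical
  intro P _ V L γ X x k hL hX hx hk hthr hV hlow hmis
  have hk0 : (0 : ℝ) < k := by
    have : 0 < k := by omega
    exact_mod_cast this
  have heta : 0 ≤ eta L γ X x := by
    unfold eta
    exact sum_nonneg fun l _ => le_max_right _ _
  have hQx : 0 ≤ Qx V L γ x := by
    unfold Qx
    apply sum_nonneg
    intro l hl
    have : (l.card : ℝ) ≤ V.card := by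
      exact_mod_cast card_le_card (hL.sub l (mem_filter.1 hl).1)
    apply mul_nonneg (by linarith)
    exact sum_nonneg fun z _ => sq_nonneg _
  rcases Nat.eq_zero_or_pos (NN L X x) with h0 | h0
  · unfold trm
    rw [h0]
    have h1 : 0 ≤ 1 / (2 * (k : ℝ)) := by positivity
    push_cast
    nlinarith
  -- the lines through `x`
  have hline : ∀ z : P, z ∈ V ∧ z ≠ x → ∃ l, l ∈ L ∧ x ∈ l ∧ z ∈ l := by
    intro z hz
    obtain ⟨l, hl, h1, h2⟩ := hL.ex x hx z hz.1 hz.2.symm
    exact ⟨l, hl, h1, h2⟩
  choose! ln hln using hline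
  have hln' : ∀ z ∈ V, z ≠ x → ln z ∈ L ∧ x ∈ ln z ∧ z ∈ ln z := fun z hz hne => hln z ⟨hz, hne⟩
  set b : ℕ := (lowS V γ x 0).card with hb
  set N : ℕ := NN L X x with hN
  have hroom := room hL hX hx
  rw [← hb, ← hN] at hroom
  have hZ : ∀ z ∈ lowS V γ x 0, z ∈ V ∧ 0 < γ x - γ z ∧ z ≠ x := by
    intro z hz
    unfold lowS at hz
    rw [mem_filter] at hz
    refine ⟨hz.1, hz.2, ?_⟩
    rintro rfl
    simp at hz
  have key := hABT {z // z ∈ lowS V γ x 0} {l // l ∈ L.filter (fun l => x ∉ l)}
    (fun z => γ x - γ z.1) (fun l => max (γ x - γ (X l.1)) 0)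
    (fun z => (V.card : ℝ) - (ln z.1).card) N k b h0 hk hlow (by omega)
    (by rw [Fintype.card_coe]) (fun z => (hZ z.1 z.2).2.1.le) (fun l => le_max_right _ _)
    (by
      intro z
      obtain ⟨hzV, _, hzx⟩ := hZ z.1 z.2
      have h1 := hln' z.1 hzV hzx
      have h2 : ((ln z.1).card : ℝ) ≤ k + 1 := by exact_mod_cast hthr _ h1.1 h1.2.1
      have h3 : (b : ℝ) + 1 + N ≤ V.card := by exact_mod_cast hroom
      show (b : ℝ) + N - k ≤ (V.card : ℝ) - (ln z.1).card
      linarith)
    (by
      intro θ hθ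
      have h1 := hmis θ hθ
      have e1 : (univ.filter (fun z : {z // z ∈ lowS V γ x 0} => θ < γ x - γ z.1)).card =
          (lowS V γ x θ).card := by
        rw [← Finset.card_map (Function.Embedding.subtype _)]
        congr 1
        ext z
        simp only [mem_map, mem_filter, mem_univ, true_and, Function.Embedding.subtype_apply,
          Subtype.exists, exists_and_right, exists_eq_right]
        unfold lowS
        simp only [mem_filter]
        constructor
        · rintro ⟨⟨h2, _⟩, h3⟩
          exact ⟨h2, h3⟩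
        · rintro ⟨h2, h3⟩
          exact ⟨⟨h2, lt_of_le_of_lt hθ h3⟩, h3⟩
      have e2 : (univ.filter (fun l : {l // l ∈ L.filter (fun l => x ∉ l)} =>
          θ < max (γ x - γ (X l.1)) 0)).card = (mis L x (lowS V γ x θ)).card := by
        rw [lowS_mis hL hX, ← Finset.card_map (Function.Embedding.subtype _)]
        congr 1
        ext l
        simp only [mem_map, mem_filter, mem_univ, true_and, Function.Embedding.subtype_apply,
          Subtype.exists, exists_and_right, exists_eq_right, lt_max_iff]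
        constructor
        · rintro ⟨⟨h2, h3⟩, h4⟩
          refine ⟨h2, h3, ?_⟩
          rcases h4 with h4 | h4
          · exact h4
          · exact absurd hθ (not_le.2 h4)
        · rintro ⟨h2, h3, h4⟩
          exact ⟨⟨h2, h3⟩, Or.inl h4⟩
      rw [e1, e2]
      exact h1)
  have s1 : ∑ z : {z // z ∈ lowS V γ x 0}, (γ x - γ z.1) = bet V γ x := by
    rw [Finset.sum_coe_sort (lowS V γ x 0) (fun z => γ x - γ z)]
    unfold bet lowS
    rw [sum_filter]
    apply sum_congr rfl
    intro z _
    split_ifs with h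
    · rw [max_eq_left h.le]
    · rw [max_eq_right (not_lt.1 h)]
  have s2 : ∑ l : {l // l ∈ L.filter (fun l => x ∉ l)}, max (γ x - γ (X l.1)) 0 = eta L γ X x := by
    rw [Finset.sum_coe_sort (L.filter (fun l => x ∉ l)) (fun l => max (γ x - γ (X l)) 0)]
    rfl
  have s3 : ∑ z : {z // z ∈ lowS V γ x 0}, ((V.card : ℝ) - (ln z.1).card) * (γ x - γ z.1) ^ 2 =
      Qx V L γ x := by
    rw [Finset.sum_coe_sort (lowS V γ x 0) (fun z => ((V.card : ℝ) - (ln z).card) * (γ x - γ z) ^ 2),
      ← Qx_eq hL γ hx ln hln']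
  rw [s1, s2, s3] at key
  unfold trm
  rw [← hN]
  exact key

end Pool.Agent.Q164.PLP
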